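import Pool.Agent.Y600.DC.Stm
import Mathlib

/-!
# Multiplicative weights inequality (project DC, package MWU)
-/

namespace Pool.Agent.U373.DC

open Pool.Agent.Y600.DC

/-- the weight of the vertex `v` before round `t` -/
noncomputable def wt {n : ℕ} (G : SimpleGraph (Fin n)) (pick : ℕ → Fin n) (t : ℕ) (v : Fin n) : ℕ :=
  (2 * n + 1) ^ cnt G pick t v * (2 * n + 2) ^ (t - cnt G pick t v)

open Classical in
theorem cnt_le {n : ℕ} (G : SimpleGraph (Fin n)) (pick : ℕ → Fin n) (t : ℕ) (v : Fin n) :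
    cnt G pick t v ≤ t := by
  unfold cnt
  exact (Finset.card_filter_le _ _).trans (by simp)

open Classical in
theorem cnt_succ {n : ℕ} (G : SimpleGraph (Fin n)) (pick : ℕ → Fin n) (t : ℕ) (v : Fin n) :
    cnt G pick (t + 1) v = cnt G pick t v + if Close G v (pick t) then 1 else 0 := by
  unfold cnt
  rw [Finset.range_add_one, Finset.filter_insert]
  split_ifs with h
  · rw [Finset.card_insert_of_notMem]
    simp
  · simp

open Classical in
theorem wt_succ {n : ℕ} (G : SimpleGraph (Fin n)) (pick : ℕ → Fin n) (t : ℕ) (v : Fin n) :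
    wt G pick (t + 1) v + (if Close G v (pick t) then wt G pick t v else 0)
      = (2 * n + 2) * wt G pick t v := by
  have hle := cnt_le G pick t v
  unfold wt
  rw [cnt_succ]
  split_ifs with h
  · rw [show t + 1 - (cnt G pick t v + 1) = t - cnt G pick t v by omega, pow_succ]
    ring
  · rw [show t + 1 - (cnt G pick t v + 0) = (t - cnt G pick t v) + 1 by omega, pow_succ, add_zero]
    ring

open Classical in
theorem sum_succ {n : ℕ} (G : SimpleGraph (Fin n)) (pick : ℕ → Fin n) (t : ℕ) :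
    (∑ v, wt G pick (t + 1) v) + load G pick t (pick t) = (2 * n + 2) * ∑ v, wt G pick t v := by
  rw [Finset.mul_sum, ← Finset.sum_congr rfl (fun v _ => wt_succ G pick t v),
    Finset.sum_add_distrib]
  congr 1
  rw [load, Finset.sum_filter]
  rfl

open Classical in
theorem le_load {n : ℕ} (G : SimpleGraph (Fin n)) (pick : ℕ → Fin n) (t : ℕ)
    (D : Finset (Fin n)) (hD : Dominating G D)
    (hg : ∀ u, load G pick t u ≤ load G pick t (pick t)) :
    (∑ v, wt G pick t v) ≤ D.card * load G pick t (pick t) := by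
  calc (∑ v, wt G pick t v) ≤ ∑ v, ∑ u ∈ D, if Close G v u then wt G pick t v else 0 := by
        apply Finset.sum_le_sum
        intro v _
        obtain ⟨u, hu, huv⟩ : ∃ u ∈ D, Close G v u := by
          by_cases hv : v ∈ D
          · exact ⟨v, hv, Or.inl rfl⟩
          · obtain ⟨w, hw, hvw⟩ := hD v hv
            exact ⟨w, hw, Or.inr hvw⟩
        have := Finset.single_le_sum (s := D)
          (f := fun u => if Close G v u then wt G pick t v else 0) (fun _ _ => Nat.zero_le _) hu
        simpa [huv] using this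
    _ = ∑ u ∈ D, load G pick t u := by
        rw [Finset.sum_comm]
        apply Finset.sum_congr rfl
        intro u _
        rw [load, Finset.sum_filter]
        rfl
    _ ≤ ∑ _u ∈ D, load G pick t (pick t) := Finset.sum_le_sum (fun u _ => hg u)
    _ = D.card * load G pick t (pick t) := by simp

open Classical in
theorem pow_bound {n : ℕ} (G : SimpleGraph (Fin n)) (pick : ℕ → Fin n) (T : ℕ)
    (hg : Greedy G pick T) (D : Finset (Fin n)) (hD : Dominating G D) (hk : 1 ≤ D.card) (t : ℕ)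
    (ht : t ≤ T) :
    D.card ^ t * (∑ v, wt G pick t v) ≤ n * (D.card * (2 * n + 2) - 1) ^ t := by
  induction t with
  | zero => simp [wt, cnt]
  | succ t ih =>
    have ih := ih (by omega)
    have h1 := sum_succ G pick t
    have h2 := le_load G pick t D hD (hg t (by omega))
    set k := D.card
    set F := ∑ v, wt G pick t v
    set F' := ∑ v, wt G pick (t + 1) v
    have h3 : k * F' ≤ (k * (2 * n + 2) - 1) * F := by
      have h4 : k * F' + F ≤ k * (2 * n + 2) * F := by
        calc k * F' + F ≤ k * F' + k * load G pick t (pick t) := by omega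
          _ = k * (2 * n + 2) * F := by rw [← mul_add, h1]; ring
      have h5 : 1 ≤ k * (2 * n + 2) := Nat.one_le_iff_ne_zero.mpr (by positivity)
      rw [Nat.sub_mul, one_mul]
      omega
    calc k ^ (t + 1) * F' = k ^ t * (k * F') := by ring
      _ ≤ k ^ t * ((k * (2 * n + 2) - 1) * F) := by gcongr
      _ = (k * (2 * n + 2) - 1) * (k ^ t * F) := by ring
      _ ≤ (k * (2 * n + 2) - 1) * (n * (k * (2 * n + 2) - 1) ^ t) := by gcongr
      _ = n * (k * (2 * n + 2) - 1) ^ (t + 1) := by ring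

theorem t_MWU : S_MWU := by
  classical
  intro n G pick hg D hD v
  by_contra hcon
  push Not at hcon
  have hn : 1 ≤ n := by have := v.isLt; omega
  have hk : 1 ≤ D.card := by
    rw [Nat.one_le_iff_ne_zero, Ne, Finset.card_eq_zero]
    rintro rfl
    obtain ⟨w, hw, _⟩ := hD v (by simp)
    simp at hw
  have hkn : D.card ≤ n := by
    simpa using Finset.card_le_univ D
  have hb := pow_bound G pick (rounds n) hg D hD hk (rounds n) le_rfl
  have hsingle : wt G pick (rounds n) v ≤ ∑ u, wt G pick (rounds n) u :=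
    Finset.single_le_sum (fun _ _ => Nat.zero_le _) (Finset.mem_univ v)
  have hcle := cnt_le G pick (rounds n) v
  set k := D.card with hkdef
  set T := rounds n with hT
  set c := cnt G pick T v with hc
  have hmain : k ^ T * ((2 * n + 1) ^ c * (2 * n + 2) ^ (T - c))
      ≤ n * (k * (2 * n + 2) - 1) ^ T :=
    le_trans (Nat.mul_le_mul_left _ hsingle) hb
  -- to the reals
  have hn' : (1 : ℝ) ≤ n := by exact_mod_cast hn
  have hk' : (1 : ℝ) ≤ k := by exact_mod_cast hk
  have hkn' : (k : ℝ) ≤ n := by exact_mod_cast hkn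
  have hTpos : (0 : ℝ) < T := by
    rw [hT, rounds]
    positivity
  have hone : 1 ≤ k * (2 * n + 2) := Nat.one_le_iff_ne_zero.mpr (by positivity)
  have hreal : (k : ℝ) ^ T * ((2 * n + 1 : ℝ) ^ c * (2 * n + 2 : ℝ) ^ (T - c))
      ≤ n * ((k : ℝ) * (2 * n + 2) - 1) ^ T := by
    have := (Nat.cast_le (α := ℝ)).mpr hmain
    push_cast [Nat.cast_sub hone] at this
    exact this
  have hA : (0 : ℝ) < 2 * n + 1 := by positivity
  have hB : (0 : ℝ) < 2 * n + 2 := by positivity
  have hC : (0 : ℝ) < (k : ℝ) * (2 * n + 2) - 1 := by nlinarith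
  have hlog := Real.log_le_log (by positivity) hreal
  rw [Real.log_mul (by positivity) (by positivity), Real.log_mul (by positivity) (by positivity),
    Real.log_mul (by positivity) (by positivity), Real.log_pow, Real.log_pow, Real.log_pow,
    Real.log_pow, Nat.cast_sub hcle] at hlog
  -- T log k + c log (2n+1) + (T - c) log (2n+2) ≤ log n + T log (k(2n+2) - 1)
  have hlogn : Real.log n ≤ n := by
    have := Real.log_le_sub_one_of_pos (show (0 : ℝ) < n by linarith)
    linarith
  have h1 : Real.log ((k : ℝ) * (2 * n + 2) - 1) ≤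
      Real.log k + Real.log (2 * n + 2) - 1 / (k * (2 * n + 2)) := by
    have h2 := Real.log_le_sub_one_of_pos
      (show (0 : ℝ) < ((k : ℝ) * (2 * n + 2) - 1) / (k * (2 * n + 2)) by positivity)
    rw [Real.log_div hC.ne' (by positivity), Real.log_mul (by positivity) hB.ne'] at h2
    have h3 : ((k : ℝ) * (2 * n + 2) - 1) / (k * (2 * n + 2)) - 1 = - (1 / (k * (2 * n + 2))) := by
      field_simp
      ring
    rw [h3] at h2
    linarith
  have h2 : Real.log (2 * n + 2 : ℝ) ≤ Real.log (2 * n + 1) + 1 / (2 * n + 1) := by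
    have h3 := Real.log_le_sub_one_of_pos (show (0 : ℝ) < (2 * n + 2 : ℝ) / (2 * n + 1) by positivity)
    rw [Real.log_div hB.ne' hA.ne'] at h3
    have h4 : (2 * n + 2 : ℝ) / (2 * n + 1) - 1 = 1 / (2 * n + 1) := by
      field_simp
      ring
    rw [h4] at h3
    linarith
  have hcT : ((k : ℝ) + 1) * c ≤ T := by exact_mod_cast hcon
  have hc0 : (0 : ℝ) ≤ c := by positivity
  -- T / (k (2n+2)) ≤ n + c / (2n+1)
  have h3 : (T : ℝ) / (k * (2 * n + 2)) ≤ n + c / (2 * n + 1) := by
    have h5 := mul_le_mul_of_nonneg_left h1 hTpos.le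
    have h6 := mul_le_mul_of_nonneg_left h2 hc0
    have h7 : (T : ℝ) * (Real.log k + Real.log (2 * n + 2) - 1 / (k * (2 * n + 2)))
        = T * Real.log k + T * Real.log (2 * n + 2) - T / (k * (2 * n + 2)) := by ring
    have h8 : (c : ℝ) * (Real.log (2 * n + 1) + 1 / (2 * n + 1))
        = c * Real.log (2 * n + 1) + c / (2 * n + 1) := by ring
    rw [h7] at h5
    rw [h8] at h6
    nlinarith [hlog, h5, h6, hlogn]
  have hc1 : (c : ℝ) ≤ T / (k + 1) := by
    rw [le_div_iff₀ (by positivity)]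
    linarith
  have h4 : (T : ℝ) / (k * (2 * n + 2)) ≤ n + T / ((k + 1) * (2 * n + 1)) := by
    refine h3.trans ?_
    have : (c : ℝ) / (2 * n + 1) ≤ T / (k + 1) / (2 * n + 1) := by gcongr
    rw [div_div] at this
    linarith
  have h5 : (T : ℝ) * (2 * n + 1 - k) ≤ n * (k * (k + 1) * (2 * n + 1) * (2 * n + 2)) := by
    have h6 : (T : ℝ) / (k * (2 * n + 2)) - T / ((k + 1) * (2 * n + 1))
        = T * (2 * n + 1 - k) / (k * (k + 1) * (2 * n + 1) * (2 * n + 2)) := by
      field_simp
      ring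
    have h7 : T * (2 * n + 1 - k) / (k * (k + 1) * (2 * n + 1) * (2 * n + 2)) ≤ (n : ℝ) := by
      rw [← h6]; linarith
    rwa [div_le_iff₀ (by positivity)] at h7
  have hTval : (T : ℝ) = 8 * ((n : ℝ) + 1) ^ 4 := by
    rw [hT, rounds]
    push_cast
    ring
  have h6 : (T : ℝ) * (n + 1) ≤ (T : ℝ) * (2 * n + 1 - k) := by
    apply mul_le_mul_of_nonneg_left _ hTpos.le
    linarith
  have h7 : (n : ℝ) * (k * (k + 1) * (2 * n + 1) * (2 * n + 2))
      ≤ n * (n * (n + 1) * (2 * n + 2) * (2 * n + 2)) := by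
    gcongr
    linarith
  rw [hTval] at h6 h5
  have h8 : (n : ℝ) ^ 2 ≤ ((n : ℝ) + 1) ^ 2 := by gcongr; linarith
  have h9 : (n : ℝ) * (n * (n + 1) * (2 * n + 2) * (2 * n + 2))
      = 4 * (n : ℝ) ^ 2 * ((n : ℝ) + 1) ^ 3 := by ring
  have h10 : 4 * (n : ℝ) ^ 2 * ((n : ℝ) + 1) ^ 3 ≤ 4 * ((n : ℝ) + 1) ^ 2 * ((n : ℝ) + 1) ^ 3 :=
    mul_le_mul_of_nonneg_right (by linarith) (by positivity)
  have h11 : 4 * ((n : ℝ) + 1) ^ 2 * ((n : ℝ) + 1) ^ 3 = 4 * ((n : ℝ) + 1) ^ 5 := by ring
  have h12 : 8 * ((n : ℝ) + 1) ^ 4 * (n + 1) = 8 * ((n : ℝ) + 1) ^ 5 := by ring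
  have h13 : (0 : ℝ) < ((n : ℝ) + 1) ^ 5 := by positivity
  rw [h12] at h6
  rw [h9] at h7
  rw [h11] at h10
  linarith

end Pool.Agent.U373.DC
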